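import Pool.Agent.Helper2.V8C.Sum
import Pool.Agent.Helper2.V8B.Final
import Pool.Agent.Helper85.AT.Local

/-!
# The local criterion with parallel rows counted once
-/

set_option autoImplicit false

namespace Pool.Agent.Helper2.V8C

open Complex Finset Polynomial Pool.Agent.Helper85.Exp Pool.Agent.Helper60.EV2 Pool.Agent.Helper2.PD Pool.Agent.Helper16.PD Pool.Agent.Helper43.Pln
  Pool.Agent.Helper30.VQ Pool.Agent.Helper2.V8B Pool.Agent.Helper59.V8 Pool.Agent.Helper61.TW Pool.Agent.Helper85.AT Pool.Agent.Helper85.AT.L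

variable {P : Type}

section ret

variable [Finite P] (σ : Equiv.Perm P) (B : P → Prop)

theorem rp_symm_one {p : {p // B p}} (h : B (σ.symm p)) : (rp σ B).symm p = ⟨σ.symm p, h⟩ := by
  rw [Equiv.symm_apply_eq]
  have h2 : rt σ B ⟨σ.symm p, h⟩ = 1 := by
    refine rt_eq _ _ one_pos ?_ (fun i h1 h2 => absurd h2 (by omega))
    rw [pow_one, Equiv.apply_symm_apply]
    exact p.2
  refine Subtype.ext ?_
  rw [rp_apply, h2, pow_one, Equiv.apply_symm_apply]

end ret

section circle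

variable {σ : Equiv.Perm P} {e e' : P}

theorem same_two (h1 : σ e = e') (h2 : σ e' = e) {q : P} : σ.SameCycle e q ↔ q = e ∨ q = e' := by
  constructor
  · rintro ⟨k, rfl⟩
    have key : ∀ n : ℕ, (σ ^ n) e = e ∨ (σ ^ n) e = e' := by
      intro n
      induction n with
      | zero => exact Or.inl rfl
      | succ n ih =>
        rw [pow_succ', Equiv.Perm.mul_apply]
        rcases ih with ih | ih
        · rw [ih, h1]; exact Or.inr rfl
        · rw [ih, h2]; exact Or.inl rfl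
    have h1' : σ⁻¹ e = e' := by rw [Equiv.Perm.inv_eq_iff_eq]; exact h2.symm
    have h2' : σ⁻¹ e' = e := by rw [Equiv.Perm.inv_eq_iff_eq]; exact h1.symm
    have key' : ∀ n : ℕ, (σ⁻¹ ^ n) e = e ∨ (σ⁻¹ ^ n) e = e' := by
      intro n
      induction n with
      | zero => exact Or.inl rfl
      | succ n ih =>
        rw [pow_succ', Equiv.Perm.mul_apply]
        rcases ih with ih | ih
        · rw [ih, h1']; exact Or.inr rfl
        · rw [ih, h2']; exact Or.inl rfl
    obtain ⟨n, rfl | rfl⟩ := k.eq_nat_or_neg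
    · rw [zpow_natCast]; exact key n
    · rw [zpow_neg, zpow_natCast, ← inv_pow]; exact key' n
  · rintro (rfl | rfl)
    · exact Equiv.Perm.SameCycle.refl _ _
    · exact ⟨1, by rw [zpow_one, h1]⟩

end circle

variable {G : Sh P}

/-- The weight of a circle with two visits on the same side is zero. -/
theorem weight_two {I : P → Prop} {e e' : P} (h1 : seifert G e = e') (h2 : seifert G e' = e) (hne : e ≠ e') (hs : G.lf e' = G.lf e)
    (hI : ¬ I e) (hI' : ¬ I e') (α : ℝ) : weight α G I e = 0 := by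
  have hz : Pool.Agent.Helper2.V8B.side G I (!G.lf e) e = 0 := by
    unfold Pool.Agent.Helper2.V8B.side
    have : IsEmpty {q : P // (seifert G).SameCycle e q ∧ ¬ I q ∧ G.lf q = !G.lf e} := by
      refine ⟨fun q => ?_⟩
      obtain ⟨q, hq1, -, hq3⟩ := q
      rcases (same_two h1 h2).1 hq1 with rfl | rfl
      · cases h : G.lf q <;> rw [h] at hq3 <;> exact absurd hq3 (by decide)
      · rw [hs] at hq3
        cases h : G.lf e <;> rw [h] at hq3 <;> exact absurd hq3 (by decide)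
    exact Nat.card_of_isEmpty
  have ht : Pool.Agent.Helper2.V8B.side G I (G.lf e) e = 2 := by
    unfold Pool.Agent.Helper2.V8B.side
    have h3 : Nat.card {q : P // (seifert G).SameCycle e q ∧ ¬ I q ∧ G.lf q = G.lf e} = Nat.card ({e, e'} : Set P) := by
      refine Nat.card_congr (Equiv.subtypeEquivRight fun q => ?_)
      rw [same_two h1 h2, Set.mem_insert_iff, Set.mem_singleton_iff]
      constructor
      · exact fun h => h.1
      · rintro (rfl | rfl)
        · exact ⟨Or.inl rfl, hI, rfl⟩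
        · exact ⟨Or.inr rfl, hI', hs⟩
    rw [h3, Nat.card_coe_set_eq, Set.ncard_pair hne]
  have hcot : Real.cot (Real.pi / (2 : ℕ)) = 0 := by
    rw [Real.cot_eq_cos_div_sin]
    push_cast
    rw [Real.cos_pi_div_two, zero_div]
  unfold weight total
  cases h : G.lf e with
  | true =>
    rw [h] at hz ht
    rw [show (!true) = false from rfl] at hz
    rw [hz, ht, Nat.add_zero, hcot]
    simp
  | false =>
    rw [h] at hz ht
    rw [show (!false) = true from rfl] at hz
    rw [hz, ht, Nat.zero_add, hcot]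
    simp

variable [Fintype P] {A : Finset P} {m : P → ℕ} {I : P → Prop}

/-- The crossings of the longer regions lie in no bigon of `I`. -/
def Sep (G : Sh P) (A : Finset P) (m : P → ℕ) (I : P → Prop) : Prop :=
  ∀ a ∈ A, 2 ≤ m a → ∀ r < m a, ¬ I (G.nxt^[r] a) ∧ ¬ I ((seifert G).symm (G.nxt^[r] a))

omit [Fintype P] in
theorem symm_op (hI : Bigons G I) {p : P} (h : ¬ I ((seifert G).symm p)) : ¬ I ((seifert G).symm (G.op p)) := by
  intro h1
  have h2 := hI.op _ h1
  have h3 := (hI.bigon _ h2).1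
  rw [G.op_op] at h3
  apply h
  have h4 : seifert G (G.op ((seifert G).symm (G.op p))) = p := by
    rw [seifert_apply, ← h3]
    have h5 : G.op (G.nxt ((seifert G).symm (G.op p))) = G.op p := by
      rw [← seifert_apply, Equiv.apply_symm_apply]
    have h6 := congrArg G.op h5
    rw [G.op_op, G.op_op] at h6
    exact h6
  have h5 : (seifert G).symm p = G.op ((seifert G).symm (G.op p)) := by
    rw [Equiv.symm_apply_eq, h4]
  rw [h5]
  exact h2

omit [Fintype P] in
theorem op_iff (hI : Bigons G I) {p : P} : I (G.op p) ↔ I p :=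
  ⟨fun h => by have := hI.op _ h; rwa [G.op_op] at this, fun h => hI.op _ h⟩

omit [Fintype P] in
theorem sep_xr (hI : Bigons G I) (hS : Sep G A m I) {a : P} (ha : a ∈ A) (h2 : 2 ≤ m a) {r : ℕ} (hr : r < m a) :
    ¬ I (xr G a r) ∧ ¬ I ((seifert G).symm (xr G a r)) := by
  obtain ⟨h3, h4⟩ := hS a ha h2 r hr
  unfold xr
  split_ifs
  · exact ⟨h3, h4⟩
  · exact ⟨fun h => h3 ((op_iff hI).1 h), symm_op hI h4⟩

omit [Fintype P] in
/-- the weights of the inner circles of a region -/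
theorem weight_inner (ho : ∀ i, G.op i ≠ i) (hI : Bigons G I) (hS : Sep G A m I) (hT : Twist G A m) {a : P} (ha : a ∈ A) {r : ℕ} (hr : r + 1 < m a)
    (α : ℝ) : weight α G I (G.nxt^[r] a) = 0 ∧ weight α G I (G.op (G.nxt^[r + 1] a)) = 0 := by
  have hbig := hT.big a ha r hr
  have halt := hT.alt a ha r hr
  have hnx : G.nxt (G.nxt^[r] a) = G.nxt^[r + 1] a := (Function.iterate_succ_apply' _ _ _).symm
  have h1 : seifert G (G.nxt^[r] a) = G.op (G.nxt^[r + 1] a) := by rw [seifert_apply, hnx]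
  have h2 : seifert G (G.op (G.nxt^[r + 1] a)) = G.nxt^[r] a := by rw [seifert_apply, hbig, G.op_op]
  have hne : G.nxt^[r] a ≠ G.op (G.nxt^[r + 1] a) := by
    intro h
    have := (hT.inj a ha a ha r (by omega) (r + 1) hr (Or.inr h)).2
    omega
  have hs : G.lf (G.op (G.nxt^[r + 1] a)) = G.lf (G.nxt^[r] a) := by
    rw [G.lf_op _ (ho _), halt, Bool.not_not]
  have i1 := (hS a ha (by omega) r (by omega)).1
  have i2 : ¬ I (G.op (G.nxt^[r + 1] a)) := fun h => (hS a ha (by omega) (r + 1) hr).1 ((op_iff hI).1 h)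
  exact ⟨weight_two h1 h2 hne hs i1 i2 α, weight_two h2 h1 (Ne.symm hne) hs.symm i2 i1 α⟩

omit [Fintype P] in
/-- the sum of the weights over a region -/
theorem sum_weight (ho : ∀ i, G.op i ≠ i) (hI : Bigons G I) (hS : Sep G A m I) (hT : Twist G A m) {a : P} (ha : a ∈ A) (α : ℝ) :
    ∑ r ∈ range (m a), (weight α G I (xr G a r) + weight α G I (G.op (xr G a r))) =
    weight α G I (G.op a) + weight α G I (G.nxt^[m a - 1] a) := by
  have e1 : ∀ r, weight α G I (xr G a r) + weight α G I (G.op (xr G a r)) = weight α G I (G.nxt^[r] a) + weight α G I (G.op (G.nxt^[r] a)) := by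
    intro r
    unfold xr
    split_ifs
    · rfl
    · rw [G.op_op, add_comm]
  rw [Finset.sum_congr rfl fun r _ => e1 r]
  obtain ⟨n, hn⟩ : ∃ n, m a = n + 1 := ⟨m a - 1, by have := hT.pos a ha; omega⟩
  rw [hn, Finset.sum_add_distrib, Finset.sum_range_succ, Finset.sum_range_succ']
  have z1 : ∑ r ∈ range n, weight α G I (G.nxt^[r] a) = 0 :=
    Finset.sum_eq_zero fun r hr => (weight_inner ho hI hS hT ha (by rw [mem_range] at hr; omega) α).1
  have z2 : ∑ r ∈ range n, weight α G I (G.op (G.nxt^[r + 1] a)) = 0 :=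
    Finset.sum_eq_zero fun r hr => (weight_inner ho hI hS hT ha (by rw [mem_range] at hr; omega) α).2
  rw [z1, z2, Nat.add_sub_cancel, Function.iterate_zero_apply]
  ring

omit [Fintype P] in
theorem lf_xr (ho : ∀ i, G.op i ≠ i) (a : P) (r : ℕ) : G.lf (xr G a r) = true := by
  unfold xr
  split_ifs with h
  · exact h
  · rw [G.lf_op _ (ho _)]
    simpa using h

omit [Fintype P] in
theorem eq_xr (ho : ∀ i, G.op i ≠ i) {a p : P} {r : ℕ} (hp : G.lf p = true) (h : p = G.nxt^[r] a ∨ p = G.op (G.nxt^[r] a)) : p = xr G a r := by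
  unfold xr
  rcases h with h | h
  · rw [← h, if_pos hp]
  · have h2 : G.lf (G.nxt^[r] a) = false := by
      have h3 := G.lf_op _ (ho (G.nxt^[r] a))
      rw [← h, hp] at h3
      cases h4 : G.lf (G.nxt^[r] a)
      · rfl
      · rw [h4] at h3
        exact absurd h3 (by decide)
    rw [if_neg (by rw [h2]; decide), ← h]

/-- the values below a crossing -/
theorem south_eq (ho : ∀ i, G.op i ≠ i) (c : Face G → ℂ) {p : P} (hp : G.lf p = true) :
    c (Rf G ((seifert G).symm p)) = c (Lf G (G.nxt.symm p)) := by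
  have h3 := (ofG ho c).south p hp
  have h4 : (ofG ho c).L ((ofG ho c).sg.symm ((ofG ho c).op p)) = c (Lf G (G.nxt.symm p)) := by
    show c (Lf G (G.nxt.symm (G.op (G.op p)))) = _
    rw [G.op_op]
  rw [h4] at h3
  exact h3

/-- **No colouring outside the sector**, with the sum grouped by the regions. -/
theorem zero_R (hG : Plane G) {s : ℂ} (hs0 : s ≠ 0) (hs : ‖s‖ < 1)
    {α : ℝ} (h0 : 0 ≤ α) (h1 : α ≤ 1) (hI : Bigons G I) (hT : Twist G A m) (hS : Sep G A m I)
    (hmar : ∀ m : ℕ, 0 < m → (if m = 2 then 5 / 3 + α else √3 + 9 / 10 * α) * |(s + s⁻¹).im| <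
      normSq (s + s⁻¹) / 2 * ((1 + (-s ^ 2) ^ m) / (1 - (-s ^ 2) ^ m)).re +
        α * ((if 0 ≤ s.re then 1 else -1) * ((s + s⁻¹) * ((1 + (-s ^ 2) ^ m) / (1 - (-s ^ 2) ^ m))).re))
    {c : Face G → ℂ} (hc : ∀ x : Cr G, c (Rf G x.1) + s ^ 2 * c (Lf G (G.nxt.symm x.1)) = s * (c (Lf G x.1) + c (Rf G (G.op x.1))))
    (hw1 : ∀ a ∈ A, m a = 1 → ∀ p, p = a ∨ p = G.op a → ¬ I p → weight α G I p + weight α G I (G.op p) ≤ √3 + 9 / 10 * α ∧
      (Two G I p → weight α G I p + weight α G I (G.op p) ≤ 5 / 3 + α))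
    (hw2 : ∀ a ∈ A, 2 ≤ m a → weight α G I (G.op a) + weight α G I (G.nxt^[m a - 1] a) ≤ m a * (√3 + 9 / 10 * α))
    (b : P) (hb1 : c (Lf G b) = 0) (hb2 : c (Rf G b) = 0) :
    ∀ f, c f = 0 := by
  classical
  have ho := hG.cross
  have hp := pos_ofG ho hc
  have hB := blk_ofG ho c hI
  have hr : ∀ x : {p // ¬ I p}, (1 : ℂ) - (-s ^ 2) ^ Ws.Blk.len (ofG ho c) I x ≠ 0 := fun x h =>
    Ws.Blk.rho_pow_ne hs (Ws.Blk.len_pos x) (by linear_combination -h)
  obtain ⟨qf, hqf⟩ : ∃ qf : {p // ¬ I p} → ℂ, qf = fun x => (1 + (-s ^ 2) ^ Ws.Blk.len (ofG ho c) I x) / (1 - (-s ^ 2) ^ Ws.Blk.len (ofG ho c) I x) := ⟨_, rfl⟩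
  obtain ⟨σ, hσ⟩ : ∃ σ : ℝ, σ = if 0 ≤ s.re then 1 else -1 := ⟨_, rfl⟩
  have hσ1 : |σ| ≤ 1 := by
    rw [hσ]
    split_ifs <;> simp
  have hsum := Ws.lens_sum (W := hB.ct) hs0 qf (fun x hx => ?_) h0
      (wt α (rp (seifert G) (fun p => ¬ I p)) (lst G I)) (fun e => wt_apply (α := α) (rp (seifert G) (fun p => ¬ I p)) (lst G I) e) (fun e => ?_) hσ1
  rotate_left
  · have h2 := hB.block hp x hx
    have h3 := hr x
    refine mul_right_cancel₀ h3 ?_
    have h4 : qf x * (1 - (-s ^ 2) ^ Ws.Blk.len (ofG ho c) I x) = 1 + (-s ^ 2) ^ Ws.Blk.len (ofG ho c) I x := by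
      rw [hqf]
      exact div_mul_cancel₀ _ h3
    linear_combination 2 * h2 - (1 + s ^ 2) * (hB.ct.R x - hB.ct.R (hB.ct.sg.symm x)) * h4
  · refine cycle_wt h0 h1 (rp (seifert G) (fun p => ¬ I p)) hB.ct.L hB.ct.R (lst G I) (fun e he => ?_) (fun e he => ?_) e
    · have he' : G.lf (rp (seifert G) (fun p => ¬ I p) e : {p // ¬ I p}) = false := by
        unfold lst at he
        simpa using he
      exact Ws.east' (W := hB.ct) (p := e) he'
    · have he' : G.lf (rp (seifert G) (fun p => ¬ I p) e : {p // ¬ I p}) = true := by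
        unfold lst at he
        simpa using he
      exact Ws.west' (W := hB.ct) (p := e) he'
  obtain ⟨v, hv⟩ : ∃ v : ℂ, v = s + s⁻¹ := ⟨_, rfl⟩
  rw [← hv] at hsum
  simp only [← hv, ← hσ] at hmar
  obtain ⟨D, hD⟩ : ∃ D : {p // ¬ I p} → ℝ, D = fun x => (normSq v / 2 * (qf x).re + α * (σ * (v * qf x).re)) -
      (weight α G I x + weight α G I (G.op x)) * |v.im| := ⟨_, rfl⟩
  obtain ⟨J', hJ'⟩ : ∃ J' : {p // ¬ I p} → ℝ, J' = fun x => normSq (hB.ct.R x - hB.ct.R (hB.ct.sg.symm x)) := ⟨_, rfl⟩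
  obtain ⟨F, hF⟩ : ∃ F : P → ℝ, F = fun p => if h : ¬ I p then D ⟨p, h⟩ * J' ⟨p, h⟩ else 0 := ⟨_, rfl⟩
  have hFp : ∀ p (h : ¬ I p), F p = D ⟨p, h⟩ * J' ⟨p, h⟩ := by
    intro p h
    rw [hF]
    show (if h : ¬ I p then D ⟨p, h⟩ * J' ⟨p, h⟩ else 0) = _
    exact dif_pos h
  have hFn : ∀ p, I p → F p = 0 := by
    intro p h
    rw [hF]
    show (if h : ¬ I p then D ⟨p, h⟩ * J' ⟨p, h⟩ else 0) = _
    exact dif_neg (not_not.2 h)
  have hJ0 : ∀ x, 0 ≤ J' x := fun x => by rw [hJ']; exact normSq_nonneg _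
  have hsum' : ∑ x ∈ hB.ct.X, D x * J' x ≤ 0 := by
    refine le_of_eq_of_le (Finset.sum_congr rfl fun x _ => ?_) hsum
    rw [hD, hJ']
    have e1 := wt_eq (G := G) α x
    have e2 := wt_eq (G := G) α (hB.ct.op x)
    have e3 : ((hB.ct.op x : {p // ¬ I p}) : P) = G.op x := rfl
    rw [e3] at e2
    rw [e1, e2]
  have hFs : ∑ x ∈ hB.ct.X, D x * J' x = ∑ a ∈ A, ∑ r ∈ range (m a), F (xr G a r) := by
    rw [← sum_regions ho hT F]
    have e0 : ∑ x : Cr G, F x.1 = ∑ x ∈ Xs G, F x := by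
      symm
      exact Finset.sum_subtype _ (fun x => by simp [Xs]) _
    rw [e0]
    have e1 : ∑ x ∈ hB.ct.X, D x * J' x = ∑ x ∈ hB.ct.X, F (Function.Embedding.subtype (fun p => ¬ I p) x) := by
      refine Finset.sum_congr rfl fun x _ => ?_
      exact (hFp x.1 x.2).symm
    rw [e1, ← Finset.sum_map hB.ct.X (Function.Embedding.subtype (fun p => ¬ I p)) F]
    refine Finset.sum_subset ?_ ?_
    · intro p hpm
      rw [Finset.mem_map] at hpm
      obtain ⟨x, hx, rfl⟩ := hpm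
      have h2 : G.lf x.1 = true := (Ws.mem_X (W := hB.ct)).1 hx
      unfold Xs
      rw [mem_filter]
      exact ⟨mem_univ _, h2⟩
    · intro p hp1 hp2
      refine hFn p ?_
      by_contra h
      refine hp2 ?_
      rw [Finset.mem_map]
      unfold Xs at hp1
      rw [mem_filter] at hp1
      exact ⟨⟨p, h⟩, (Ws.mem_X (W := hB.ct)).2 hp1.2, rfl⟩
  rw [hFs] at hsum'
  -- the values at the crossings of a longer region
  have hlong : ∀ a ∈ A, 2 ≤ m a → ∀ r < m a, ∀ h : ¬ I (xr G a r),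
      D ⟨xr G a r, h⟩ = (normSq v / 2 * ((1 + (-s ^ 2) ^ 1) / (1 - (-s ^ 2) ^ 1)).re + α * (σ * (v * ((1 + (-s ^ 2) ^ 1) / (1 - (-s ^ 2) ^ 1))).re)) -
        (weight α G I (xr G a r) + weight α G I (G.op (xr G a r))) * |v.im| ∧ J' ⟨xr G a r, h⟩ = J c (xr G a 0) := by
    intro a ha h2 r hrm h
    have h3 := (sep_xr hI hS ha h2 hrm).2
    have hl := lf_xr ho a r
    have hlen : Ws.Blk.len (ofG ho c) I ⟨xr G a r, h⟩ = 1 := Ws.Blk.len_one h3
    constructor
    · rw [hD, hqf]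
      simp only [hlen]
    · rw [← jump_all ho hT ha hrm c]
      rw [hJ']
      have h4 : hB.ct.sg.symm ⟨xr G a r, h⟩ = ⟨(seifert G).symm (xr G a r), h3⟩ := rp_symm_one (seifert G) (fun p => ¬ I p) h3
      show normSq (hB.ct.R ⟨xr G a r, h⟩ - hB.ct.R (hB.ct.sg.symm ⟨xr G a r, h⟩)) = _
      rw [h4]
      show normSq (c (Rf G (xr G a r)) - c (Rf G ((seifert G).symm (xr G a r)))) = _
      rw [south_eq ho c hl]
      rfl
  have hreg : ∀ a ∈ A, 0 ≤ ∑ r ∈ range (m a), F (xr G a r) ∧ (∑ r ∈ range (m a), F (xr G a r) = 0 →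
      ∀ r < m a, ∀ h : ¬ I (xr G a r), J' ⟨xr G a r, h⟩ = 0) := by
    intro a ha
    rcases Nat.lt_or_ge (m a) 2 with hm1 | hm2
    · have hm : m a = 1 := by
        have := hT.pos a ha
        omega
      rw [hm, Finset.sum_range_one]
      have hDpos : ∀ h : ¬ I (xr G a 0), 0 < D ⟨xr G a 0, h⟩ := by
        intro h
        have hor : xr G a 0 = a ∨ xr G a 0 = G.op a := by
          unfold xr
          split_ifs
          · exact Or.inl rfl
          · exact Or.inr rfl
        obtain ⟨k1, k2⟩ := hw1 a ha hm _ hor h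
        have k3 := hmar (Ws.Blk.len (ofG ho c) I ⟨xr G a 0, h⟩) (Ws.Blk.len_pos _)
        have k4 : weight α G I (xr G a 0) + weight α G I (G.op (xr G a 0)) ≤
            (if Ws.Blk.len (ofG ho c) I ⟨xr G a 0, h⟩ = 2 then 5 / 3 + α else √3 + 9 / 10 * α) := by
          split_ifs with h5
          · exact k2 (Ws.Blk.len_two h5)
          · exact k1
        have k5 := mul_le_mul_of_nonneg_right k4 (abs_nonneg v.im)
        rw [hD, hqf]
        simp only
        linarith
      constructor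
      · by_cases h : I (xr G a 0)
        · exact le_of_eq (hFn _ h).symm
        · rw [hFp _ h]
          exact mul_nonneg (hDpos h).le (hJ0 _)
      · intro hz r hr h
        obtain rfl : r = 0 := by omega
        rw [hFp _ h] at hz
        rcases mul_eq_zero.1 hz with h6 | h6
        · exact absurd h6 (hDpos h).ne'
        · exact h6
    · have e1 : ∑ r ∈ range (m a), F (xr G a r) = (m a * (normSq v / 2 * ((1 + (-s ^ 2) ^ 1) / (1 - (-s ^ 2) ^ 1)).re +
          α * (σ * (v * ((1 + (-s ^ 2) ^ 1) / (1 - (-s ^ 2) ^ 1))).re)) - (weight α G I (G.op a) + weight α G I (G.nxt^[m a - 1] a)) * |v.im|) *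
            J c (xr G a 0) := by
        rw [← sum_weight ho hI hS hT ha α, Finset.sum_mul]
        have e2 : ∀ r ∈ range (m a), F (xr G a r) = ((normSq v / 2 * ((1 + (-s ^ 2) ^ 1) / (1 - (-s ^ 2) ^ 1)).re +
            α * (σ * (v * ((1 + (-s ^ 2) ^ 1) / (1 - (-s ^ 2) ^ 1))).re)) -
              (weight α G I (xr G a r) + weight α G I (G.op (xr G a r))) * |v.im|) * J c (xr G a 0) := by
          intro r hr
          have h := (sep_xr hI hS ha hm2 (mem_range.1 hr)).1
          obtain ⟨k1, k2⟩ := hlong a ha hm2 r (mem_range.1 hr) h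
          rw [hFp _ h, k1, k2]
        rw [Finset.sum_congr rfl e2, ← Finset.sum_mul, Finset.sum_sub_distrib, Finset.sum_const, card_range, nsmul_eq_mul]
      have hpos : 0 < m a * (normSq v / 2 * ((1 + (-s ^ 2) ^ 1) / (1 - (-s ^ 2) ^ 1)).re +
          α * (σ * (v * ((1 + (-s ^ 2) ^ 1) / (1 - (-s ^ 2) ^ 1))).re)) - (weight α G I (G.op a) + weight α G I (G.nxt^[m a - 1] a)) * |v.im| := by
        have k1 := hmar 1 one_pos
        rw [if_neg (by decide)] at k1
        have k2 := mul_le_mul_of_nonneg_right (hw2 a ha hm2) (abs_nonneg v.im)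
        have k3 : (0 : ℝ) < m a := by exact_mod_cast (by omega : 0 < m a)
        have k4 := mul_lt_mul_of_pos_left k1 k3
        linarith
      have hJn : 0 ≤ J c (xr G a 0) := normSq_nonneg _
      rw [e1]
      refine ⟨mul_nonneg hpos.le hJn, fun hz r hr h => ?_⟩
      rw [(hlong a ha hm2 r hr h).2]
      rcases mul_eq_zero.1 hz with h6 | h6
      · exact absurd h6 hpos.ne'
      · exact h6
  have hall0 : ∀ a ∈ A, ∑ r ∈ range (m a), F (xr G a r) = 0 :=
    (Finset.sum_eq_zero_iff_of_nonneg fun a ha => (hreg a ha).1).1 (le_antisymm hsum' (Finset.sum_nonneg fun a ha => (hreg a ha).1))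
  have hz : ∀ x : {p // ¬ I p}, hB.ct.lf x = true → hB.ct.R x = hB.ct.R (hB.ct.sg.symm x) := by
    intro x hx
    have hx' : G.lf x.1 = true := hx
    obtain ⟨r, hr, hpr⟩ := reg_spec hT x.1
    have ha := reg_mem hT x.1
    have h2 := eq_xr ho hx' hpr
    have h3 : ¬ I (xr G (reg hT x.1) r) := by rw [← h2]; exact x.2
    have h4 := (hreg _ ha).2 (hall0 _ ha) r hr h3
    have h5 : (⟨xr G (reg hT x.1) r, h3⟩ : {p // ¬ I p}) = x := Subtype.ext h2.symm
    rw [h5, hJ'] at h4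
    exact sub_eq_zero.1 (normSq_eq_zero.1 h4)
  have hall : ∀ x : Cr G, c (Rf G x.1) = c (Lf G (G.nxt.symm x.1)) := by
    intro x
    have h2 := hB.all_of hs hp hz (p := x.1) x.2
    exact h2.trans (south_eq ho c x.2)
  exact Pool.Agent.Helper59.V8.zero_of_const ho hG.conn c s hs0 hc hall b hb1 hb2

/-- **The criterion.** -/
theorem local_RI (hG : Plane G) {α : ℝ} (h0 : 0 ≤ α) (h1 : α ≤ 1) (hI : Bigons G I) (hT : Twist G A m) (hS : Sep G A m I)
    (hw1 : ∀ a ∈ A, m a = 1 → ∀ p, p = a ∨ p = G.op a → ¬ I p → weight α G I p + weight α G I (G.op p) ≤ √3 + 9 / 10 * α ∧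
      (Two G I p → weight α G I p + weight α G I (G.op p) ≤ 5 / 3 + α))
    (hw2 : ∀ a ∈ A, 2 ≤ m a → weight α G I (G.op a) + weight α G I (G.nxt^[m a - 1] a) ≤ m a * (√3 + 9 / 10 * α))
    {nab : Dg G → ℤ[X]} (hn : Cs nab) :
    (∀ z : ℂ, aeval z (nab (allPos G)) = 0 → 3 * z.re ^ 2 ≤ z.im ^ 2) ∧ LogConcave G nab := by
  have key : ∀ z : ℂ, aeval z (nab (allPos G)) = 0 → 3 * z.re ^ 2 ≤ z.im ^ 2 := by
    intro z hz
    by_contra hcon
    push Not at hcon
    obtain ⟨s, hs0, hs, rfl⟩ := Pool.Agent.Helper2.V8B.exists_s hcon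
    obtain ⟨b⟩ := nonempty_of hG
    obtain ⟨c, ⟨f, hf⟩, hc1, hc2, hc⟩ := Pool.Agent.Helper59.V8.exists_col hG nab hn hs0 hz b
    exact hf (zero_R hG hs0 hs h0 h1 hI hT hS (fun m hm => Pool.Agent.Helper30.VQ.margin hs0 hs hcon h0 h1 hm) hc hw1 hw2 _ hc1 hc2 f)
  exact ⟨key, Pool.Agent.Helper59.V8.lc_of_sector hG nab hn key⟩

end Pool.Agent.Helper2.V8C
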