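import Pool.Agent.Helper2.V8C.Main

/-!
# The local criterion with parallel rows counted once: numbers of regions
-/

set_option autoImplicit false

namespace Pool.Agent.Helper2.V8C

open Polynomial Pool.Agent.Helper85.Exp Pool.Agent.Helper60.EV2 Pool.Agent.Helper2.PD Pool.Agent.Helper43.Pln Pool.Agent.Helper2.V8B
  Pool.Agent.Helper61.TW

theorem cot_le (n : ℕ) : Real.cot (Real.pi / n) ≤ n / Real.pi := by
  have hpi := Real.pi_pos
  have hnn : (0 : ℝ) ≤ n / Real.pi := by positivity
  rcases Nat.lt_or_ge n 3 with h | h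
  · rw [Real.cot_eq_cos_div_sin]
    interval_cases n
    · simp
    · simpa using hnn
    · push_cast
      rw [Real.cos_pi_div_two, zero_div]
      simpa using hnn
  · have hn : (3 : ℝ) ≤ n := by exact_mod_cast h
    have hx0 : 0 < Real.pi / n := by positivity
    have hx1 : Real.pi / n < Real.pi / 2 := by
      apply div_lt_div_of_pos_left hpi (by norm_num)
      linarith
    have h1 := Real.lt_tan hx0 hx1
    have h2 : Real.cot (Real.pi / n) = (Real.tan (Real.pi / n))⁻¹ := by
      rw [Real.cot_eq_cos_div_sin, Real.tan_eq_sin_div_cos, inv_div]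
    rw [h2]
    have h3 := inv_anti₀ hx0 h1.le
    rwa [inv_div] at h3

variable {P : Type} {G : Sh P} {I : P → Prop}

theorem weight_one_le (p : P) : weight 1 G I p ≤ total G I p / (2 * Real.pi) := by
  have h := cot_le (total G I p)
  have hpi := Real.pi_pos
  unfold weight
  have e : (total G I p : ℝ) / (2 * Real.pi) = (total G I p / Real.pi) / 2 := by
    field_simp
  rw [e]
  linarith

theorem weight_pair {p q : P} {m : ℕ} (h : total G I p + total G I q ≤ 16 * m) : weight 1 G I p + weight 1 G I q ≤ m * (√3 + 9 / 10 * 1) := by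
  have h1 := weight_one_le (G := G) (I := I) p
  have h2 := weight_one_le (G := G) (I := I) q
  have hpi : 3.1415 < Real.pi := by linarith [Real.pi_gt_d4]
  have hs : 1.73 ≤ √3 := Real.le_sqrt_of_sq_le (by norm_num)
  have h3 : ((total G I p : ℝ) + total G I q) / (2 * Real.pi) ≤ 16 * m / (2 * Real.pi) := by
    apply div_le_div_of_nonneg_right _ (by positivity)
    exact_mod_cast h
  have h4 : (16 * m : ℝ) / (2 * Real.pi) ≤ m * (√3 + 9 / 10 * 1) := by
    rw [div_le_iff₀ (by positivity)]
    have h5 : (16 : ℝ) ≤ (√3 + 9 / 10 * 1) * (2 * Real.pi) := by nlinarith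
    have h6 : (0 : ℝ) ≤ m := Nat.cast_nonneg _
    nlinarith
  rw [add_div] at h3
  linarith

variable [Fintype P] {A : Finset P} {m : P → ℕ}

/-- **The local criterion with parallel rows counted once**, in numbers. -/
theorem localI (hG : Plane G) (hI : Bigons G I) (hT : Twist G A m) (hS : Sep G A m I)
    (h : ∀ a ∈ A, total G I (G.op a) + total G I (G.nxt^[m a - 1] a) ≤ 16 * m a) {nab : Dg G → ℤ[X]} (hn : Cs nab) :
    (∀ z : ℂ, aeval z (nab (allPos G)) = 0 → 3 * z.re ^ 2 ≤ z.im ^ 2) ∧ LogConcave G nab := by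
  refine local_RI hG (α := 1) zero_le_one le_rfl hI hT hS (fun a ha hm p hp _ => ?_) (fun a ha _ => weight_pair (h a ha)) hn
  have h1 := weight_pair (h a ha)
  rw [hm] at h1
  simp only [Nat.sub_self, Function.iterate_zero_apply, Nat.cast_one, one_mul] at h1
  have h2 : weight 1 G I p + weight 1 G I (G.op p) ≤ √3 + 9 / 10 * 1 := by
    rcases hp with rfl | rfl
    · linarith
    · rw [G.op_op]
      exact h1
  refine ⟨h2, fun _ => ?_⟩
  have hs : √3 ≤ 1.7321 := by
    rw [Real.sqrt_le_left (by norm_num)]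
    norm_num
  linarith

end Pool.Agent.Helper2.V8C
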