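import Pool.Agent.Helper2.V8B.Sums

/-!
# The lens as an inequality between sums over the crossings
-/

set_option autoImplicit false

namespace Pool.Agent.Helper2.V8B.Ws

open Complex Finset Pool.Agent.Helper59.V8

variable {P : Type} [Fintype P] {W : Ws P}

/-- **The lens**, before the comparison at the single crossings. -/
theorem lens_sum {s : ℂ} (hs0 : s ≠ 0) (q : P → ℂ)
    (hq : ∀ x, W.lf x = true → 2 * s * (W.L x + W.R (W.op x)) =
      (1 + s ^ 2) * (W.R x + W.R (W.sg.symm x) + q x * (W.R x - W.R (W.sg.symm x))))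
    {al : ℝ} (h0 : 0 ≤ al) (w : P → ℝ) (hw : ∀ e, w (W.sg e) = w e)
    (hb : ∀ e, |∑ k ∈ range (Function.minimalPeriod W.sg e),
        fj (W.L ((W.sg ^ k) e)) (W.R ((W.sg ^ k) e)) (W.L ((W.sg ^ (k + 1)) e)) (W.R ((W.sg ^ (k + 1)) e))| +
      al * |∑ k ∈ range (Function.minimalPeriod W.sg e),
        fa (W.L ((W.sg ^ k) e)) (W.R ((W.sg ^ k) e)) (W.L ((W.sg ^ (k + 1)) e)) (W.R ((W.sg ^ (k + 1)) e))| ≤
      w e * ∑ k ∈ range (Function.minimalPeriod W.sg e),
        fu (W.L ((W.sg ^ k) e)) (W.R ((W.sg ^ k) e)) (W.L ((W.sg ^ (k + 1)) e)) (W.R ((W.sg ^ (k + 1)) e)))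
    {σ : ℝ} (hσ : |σ| ≤ 1) :
    ∑ x ∈ W.X, ((normSq (s + s⁻¹) / 2 * (q x).re + al * (σ * ((s + s⁻¹) * q x).re)) - (w x + w (W.op x)) * |(s + s⁻¹).im|) *
      normSq (W.R x - W.R (W.sg.symm x)) ≤ 0 := by
  have hp := perm_bound_of W.sg W.L W.R h0 w hw hb
  set a : ℝ := ∑ x ∈ W.X, (2 * ((starRingEnd ℂ) (W.R (W.sg.symm x)) * W.R x).im) with ha
  set j : ℝ := ∑ x ∈ W.X, ((W.L x + W.R (W.op x)) * (starRingEnd ℂ) (W.R x - W.R (W.sg.symm x))).im with hj
  set Q : ℂ := ∑ x ∈ W.X, q x * (normSq (W.R x - W.R (W.sg.symm x)) : ℝ) with hQ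
  obtain ⟨i1, i2⟩ := identities (W := W) hs0 q (fun x hx => hq x (mem_X.1 hx)) ha hj hQ
  have e1 : ∑ e, fj (W.L e) (W.R e) (W.L (W.sg e)) (W.R (W.sg e)) = j := by
    have h := sum_col (W := W) (fun _ => 1) (fun _ => rfl) fj
    simp only [one_mul] at h
    rw [h, hj]
    refine Finset.sum_congr rfl fun x _ => ?_
    unfold fj
    simp only [sub_self, map_zero, mul_zero, zero_im, zero_add, add_zero, map_sub, mul_im, add_re, add_im, sub_re, sub_im, conj_re, conj_im]
    ring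
  have e2 : ∑ e, fa (W.L e) (W.R e) (W.L (W.sg e)) (W.R (W.sg e)) = a := by
    have h := sum_col (W := W) (fun _ => 1) (fun _ => rfl) fa
    simp only [one_mul] at h
    rw [h, ha]
    refine Finset.sum_congr rfl fun x _ => ?_
    unfold fa
    simp only [mul_im, conj_re, conj_im]
    ring
  have e3 : ∑ e, w e * fu (W.L e) (W.R e) (W.L (W.sg e)) (W.R (W.sg e)) =
      ∑ x ∈ W.X, (w x + w (W.op x)) * normSq (W.R x - W.R (W.sg.symm x)) := by
    rw [sum_col (W := W) w hw fu]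
    refine Finset.sum_congr rfl fun x _ => ?_
    unfold fu
    rw [sub_self, sub_self, map_zero]
    ring
  rw [e1, e2, e3] at hp
  set v : ℂ := s + s⁻¹ with hv
  have f1 : ∑ x ∈ W.X, (normSq v / 2 * (q x).re + al * (σ * (v * q x).re)) * normSq (W.R x - W.R (W.sg.symm x)) =
      normSq v / 2 * Q.re + al * (σ * (v * Q).re) := by
    rw [hQ, Complex.re_sum, Finset.mul_sum (s := W.X) (a := v), Complex.re_sum, Finset.mul_sum, Finset.mul_sum, Finset.mul_sum, ← Finset.sum_add_distrib]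
    refine Finset.sum_congr rfl fun x _ => ?_
    have g : (v * (q x * (normSq (W.R x - W.R (W.sg.symm x)) : ℝ))).re = (v * q x).re * normSq (W.R x - W.R (W.sg.symm x)) := by
      rw [← mul_assoc, Complex.re_mul_ofReal]
    rw [g, Complex.re_mul_ofReal]
    ring
  have f2 : normSq v / 2 * Q.re + al * (σ * (v * Q).re) ≤ |v.im| * (|j| + al * |a|) := by
    have g1 : normSq v / 2 * Q.re = v.im * j := by linarith
    have g2 : (v * Q).re = -(v.im * a) := by linarith
    rw [g1, g2]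
    have g3 : v.im * j ≤ |v.im| * |j| := by
      rw [← abs_mul]
      exact le_abs_self _
    have g4 : σ * -(v.im * a) ≤ |v.im| * |a| := by
      calc σ * -(v.im * a) ≤ |σ * -(v.im * a)| := le_abs_self _
        _ = |σ| * (|v.im| * |a|) := by rw [abs_mul, abs_neg, abs_mul]
        _ ≤ 1 * (|v.im| * |a|) := mul_le_mul_of_nonneg_right hσ (by positivity)
        _ = _ := one_mul _
    have g5 := mul_le_mul_of_nonneg_left g4 h0
    linarith
  have f3 := mul_le_mul_of_nonneg_left hp (abs_nonneg v.im)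
  have g1 : ∑ x ∈ W.X, ((normSq v / 2 * (q x).re + al * (σ * (v * q x).re)) - (w x + w (W.op x)) * |v.im|) *
    normSq (W.R x - W.R (W.sg.symm x)) =
    ∑ x ∈ W.X, (normSq v / 2 * (q x).re + al * (σ * (v * q x).re)) * normSq (W.R x - W.R (W.sg.symm x)) -
      |v.im| * ∑ x ∈ W.X, (w x + w (W.op x)) * normSq (W.R x - W.R (W.sg.symm x)) := by
    rw [Finset.mul_sum, ← Finset.sum_sub_distrib]
    refine Finset.sum_congr rfl fun x _ => ?_
    ring
  rw [g1, f1]
  linarith

end Pool.Agent.Helper2.V8B.Ws
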